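import Pool.Agent.H.MP_52a6f5_lc.Defs

namespace Pool.Agent.H.MP_52a6f5_lc
open Pool.Agent.Lib.CX

theorem cheb0 {α β γ x y z w : ℝ} (ha : 0 ≤ α) (hb : 0 ≤ β) (hg : 0 ≤ γ) (hy : 0 < y) (hw : 0 < w)
    (c1 : y ≤ x) (c2 : w ≤ z) (h1 : γ + α + β < γ * x * y + α * x + β * y)
    (h2 : γ + α + β < γ * z * w + α * z + β * w) :
    min (γ * x * y + α * x + β * y) (γ * z * w + α * z + β * w) ≤
      γ * (x * z) * (y * w) + α * (x * z) + β * (y * w) := by
  have hx : 0 < x := hy.trans_le c1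
  have hz : 0 < z := hw.trans_le c2
  have mono : ∀ {x y z w : ℝ}, 0 < z → 0 < w → 1 ≤ x → 1 ≤ y →
      γ * z * w + α * z + β * w ≤ γ * (x * z) * (y * w) + α * (x * z) + β * (y * w) := by
    intro x y z w hz hw hx hy
    have e1 : z ≤ x * z := by nlinarith
    have e2 : w ≤ y * w := by nlinarith
    gcongr
  rcases le_or_gt 1 y with hy1 | hy1
  · exact (min_le_right _ _).trans (mono hz hw (hy1.trans c1) hy1)
  rcases le_or_gt 1 w with hw1 | hw1
  · refine (min_le_left _ _).trans ?_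
    have := mono hx hy (hw1.trans c2) hw1
    rwa [mul_comm z, mul_comm w] at this
  have big : ∀ {x y : ℝ}, 0 < x → 0 < y → y < 1 → γ + α + β < γ * x * y + α * x + β * y → 1 < x := by
    intro x y hx hy hy1 h
    by_contra hc
    have hc : x ≤ 1 := not_lt.1 hc
    have : γ * x * y + α * x + β * y ≤ γ * 1 * 1 + α * 1 + β * 1 := by gcongr
    linarith
  have hx1 := big hx hy hy1 h1
  have hz1 := big hz hw hw1 h2
  refine (min_le_right _ _).trans ?_
  have id : (γ + α + β) * (γ * (x * z) * (y * w) + α * (x * z) + β * (y * w)) =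
      (γ * x * y + α * x + β * y) * (γ * z * w + α * z + β * w) +
      (γ * α * ((x * (1 - y)) * (z * (1 - w))) + γ * β * ((y * (x - 1)) * (w * (z - 1))) +
        α * β * ((x - y) * (z - w))) := by ring
  have p1 : 0 < 1 - y := by linarith
  have p2 : 0 < 1 - w := by linarith
  have p3 : 0 < x - 1 := by linarith
  have p4 : 0 < z - 1 := by linarith
  have p5 : 0 ≤ x - y := by linarith
  have p6 : 0 ≤ z - w := by linarith
  have pos : 0 ≤ γ * α * ((x * (1 - y)) * (z * (1 - w))) + γ * β * ((y * (x - 1)) * (w * (z - 1))) +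
        α * β * ((x - y) * (z - w)) := by positivity
  have S0 : 0 ≤ γ + α + β := by positivity
  rcases S0.eq_or_lt with S | S
  · obtain rfl : γ = 0 := by linarith
    obtain rfl : α = 0 := by linarith
    obtain rfl : β = 0 := by linarith
    simp
  · refine le_of_mul_le_mul_left ?_ S
    rw [id]
    nlinarith

theorem cheb {α β γ x y z w : ℝ} (ha : 0 ≤ α) (hb : 0 ≤ β) (hg : 0 ≤ γ) (hx : 0 < x) (hy : 0 < y) (hz : 0 < z)
    (hw : 0 < w) (c : y ≤ x ↔ w ≤ z) (h1 : γ + α + β < γ * x * y + α * x + β * y)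
    (h2 : γ + α + β < γ * z * w + α * z + β * w) :
    min (γ * x * y + α * x + β * y) (γ * z * w + α * z + β * w) ≤
      γ * (x * z) * (y * w) + α * (x * z) + β * (y * w) := by
  by_cases h : y ≤ x
  · exact cheb0 ha hb hg hy hw h (c.1 h) h1 h2
  · have h' : z ≤ w := (not_le.1 fun e => h (c.2 e)).le
    have := cheb0 hb ha hg hx hz (not_le.1 h).le h' (by linarith) (by linarith)
    rw [show γ * x * y + α * x + β * y = γ * y * x + β * y + α * x by ring,
      show γ * z * w + α * z + β * w = γ * w * z + β * w + α * z by ring]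
    linarith

/-- the sign pattern of the network in exponential coordinates -/
def Pos (A B C D x y : ℝ) : Prop := 0 ≤ A * x * y + B * x + C * y + D

theorem step2 {A B C D x y z w : ℝ} (hB : B ≤ 0) (hC : C ≤ 0) (hD : D ≤ 0) (hx : 0 < x) (hy : 0 < y) (hz : 0 < z)
    (hw : 0 < w) (c : x ≤ y ↔ z ≤ w) (h0 : Pos A B C D 1 1) (h1 : ¬ Pos A B C D x y) (h2 : ¬ Pos A B C D z w) :
    ¬ Pos A B C D (x * z) (y * w) := by
  have tr : ∀ {x y : ℝ}, 0 < x → 0 < y →
      (¬ Pos A B C D x y ↔ A < -D * x⁻¹ * y⁻¹ + -C * x⁻¹ + -B * y⁻¹) := by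
    intro x y hx hy
    have e : A * x * y + B * x + C * y + D = (A - (-D * x⁻¹ * y⁻¹ + -C * x⁻¹ + -B * y⁻¹)) * (x * y) := by
      field_simp; ring
    rw [Pos, e, mul_nonneg_iff_of_pos_right (mul_pos hx hy), not_le, sub_neg]
  rw [tr hx hy] at h1
  rw [tr hz hw] at h2
  rw [tr (mul_pos hx hz) (mul_pos hy hw), mul_inv, mul_inv]
  unfold Pos at h0
  refine lt_of_lt_of_le (lt_min h1 h2) (cheb (by linarith) (by linarith) (by linarith) (inv_pos.2 hx) (inv_pos.2 hy)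
    (inv_pos.2 hz) (inv_pos.2 hw) ?_ (by linarith) (by linarith))
  rw [inv_le_inv₀ hy hx, inv_le_inv₀ hw hz, c]

theorem quad {A B C D a b c d xa xb xc xd : ℝ} (hA : 0 < A) (hB : 0 < B) (hC : C < 0) (hD : D < 0)
    (det : A * D ≤ B * C) (ha : 0 < a) (hb : 0 < b) (hc : 0 < c) (hd : 0 < d) (hxb : 0 < xb) (hxc : 0 < xc)
    (ex : xa * xd = xb * xc) (ey : a * d = b * c) (pa : Pos A B C D xa a) (pd : Pos A B C D xd d)
    (pb : ¬ Pos A B C D xb b) (pc : ¬ Pos A B C D xc c) : (B * D - A * C * (a * d)) * (a + d - b - c) < 0 := by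
  unfold Pos at *
  have h : ∀ {t : ℝ}, 0 < t → 0 < -C * t + -D := fun ht => by nlinarith
  have g : ∀ {t : ℝ}, 0 < t → 0 < A * t + B := fun ht => by positivity
  have e1 : (-C * a + -D) * (-C * d + -D) ≤ (xa * (A * a + B)) * (xd * (A * d + B)) :=
    mul_le_mul (by linarith) (by linarith) (h hd).le ((h ha).le.trans (by linarith))
  have e2 : (xb * (A * b + B)) * (xc * (A * c + B)) < (-C * b + -D) * (-C * c + -D) :=
    mul_lt_mul'' (by linarith) (by linarith) (mul_pos hxb (g hb)).le (mul_pos hxc (g hc)).le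
  have e3 := mul_le_mul_of_nonneg_right e1 (mul_pos (g hb) (g hc)).le
  have e4 := mul_lt_mul_of_pos_right e2 (mul_pos (g ha) (g hd))
  have e5 : xa * (A * a + B) * (xd * (A * d + B)) * ((A * b + B) * (A * c + B)) =
      xb * (A * b + B) * (xc * (A * c + B)) * ((A * a + B) * (A * d + B)) := by
    linear_combination ((A * a + B) * (A * d + B) * (A * b + B) * (A * c + B)) * ex
  have id : (-C * a + -D) * (-C * d + -D) * ((A * b + B) * (A * c + B)) -
      (-C * b + -D) * (-C * c + -D) * ((A * a + B) * (A * d + B)) =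
      (B * C - A * D) * ((B * D - A * C * (a * d)) * (a + d - b - c)) := by
    linear_combination (C ^ 2 * B ^ 2 - D ^ 2 * A ^ 2 + C ^ 2 * A * B * (a + d) - C * D * A ^ 2 * (a + d)) * ey
  by_contra hn
  have := mul_nonneg (sub_nonneg.2 det) (not_lt.1 hn)
  linarith

/-- the label pattern of the reduction, in exponential coordinates -/
structure Dat (P : ℝ → ℝ → Prop) (φ : List (T3 ℕ)) (p q ξ η : ℕ → ℝ) : Prop where
  hp : ∀ t, 0 < p t
  hq : ∀ t, 0 < q t
  hξ : ∀ t, 0 < ξ t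
  hη : ∀ t, 0 < η t
  gad : ∀ x y, (x = 1 ∧ y = 1) ∨ (∃ c ∈ φ, x = ξ c.1 * ξ c.2.1 * ξ c.2.2 ∧ y = η c.1 * η c.2.1 * η c.2.2) →
    ¬ P x y ∧ (∀ t < 3, P (p t * x) (q t * y)) ∧ ∀ t < 3, ∀ s < t, ¬ P (p s * p t * x) (q s * q t * y)
  var : ∀ c ∈ φ, ∀ i ∈ T3.vars c, ∀ t < 3, ¬ P (p t * ξ i) (q t * η i)

theorem two (f : ℕ → Prop) : ∃ t < 3, ∃ s < t, (f s ↔ f t) := by
  by_cases a : f 0 ↔ f 1
  · exact ⟨1, by omega, 0, by omega, a⟩
  by_cases b : f 0 ↔ f 2
  · exact ⟨2, by omega, 0, by omega, b⟩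
  · exact ⟨2, by omega, 1, by omega, by tauto⟩

theorem sat_of {φ : List (T3 ℕ)} (f : ℕ → Prop)
    (h : ∀ c ∈ φ, (f c.1 ↔ f c.2.1) → (f c.2.1 ↔ f c.2.2) → False) : SatR nae φ := by
  classical
  refine ⟨fun i => decide (f i), fun c hc => ?_⟩
  have := h c hc
  by_cases a : f c.1 <;> by_cases b : f c.2.1 <;> by_cases d : f c.2.2 <;> simp_all [nae]

theorem case1 {A B C D φ p q ξ η} (hA : 0 ≤ A) (hB : 0 ≤ B) (hC : 0 ≤ C) (h : Dat (Pos A B C D) φ p q ξ η) :
    False := by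
  obtain ⟨h0, h1, h2⟩ := h.gad 1 1 (Or.inl ⟨rfl, rfl⟩)
  obtain ⟨t, ht, s, hs, e⟩ := two fun t => q t ≤ p t
  have a := h1 s (by omega)
  have b := h1 t ht
  have c := h2 t ht s hs
  simp only [Pos, mul_one, not_le] at h0 a b c
  have := cheb hB hC hA (h.hp s) (h.hq s) (h.hp t) (h.hq t) e (by linarith) (by linarith)
  rcases min_le_iff.1 this with d | d <;> linarith

theorem Pos.scale {A B C D x y a b : ℝ} : Pos A B C D (a * x) (b * y) ↔ Pos (A * a * b) (B * a) (C * b) D x y := by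
  unfold Pos; constructor <;> intro h <;> linarith

theorem case2 {A B C D φ p q ξ η} (hB : B ≤ 0) (hC : C ≤ 0) (hD : D ≤ 0) (h : Dat (Pos A B C D) φ p q ξ η) :
    SatR nae φ := by
  refine sat_of (fun i => ξ i ≤ η i) fun c hc e1 e2 => ?_
  have h0 := Pos.scale.1 ((h.gad 1 1 (Or.inl ⟨rfl, rfl⟩)).2.1 0 (by omega))
  have h1 := Pos.scale.1 ((h.gad _ _ (Or.inr ⟨c, hc, rfl, rfl⟩)).2.1 0 (by omega))
  have v := fun i hi => mt Pos.scale.2 (h.var c hc i hi 0 (by omega))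
  have hB' : B * p 0 ≤ 0 := mul_nonpos_of_nonpos_of_nonneg hB (h.hp 0).le
  have hC' : C * q 0 ≤ 0 := mul_nonpos_of_nonpos_of_nonneg hC (h.hq 0).le
  have a := step2 hB' hC' hD (h.hξ _) (h.hη _) (h.hξ _) (h.hη _) e1 h0 (v c.1 (by simp [T3.vars]))
    (v c.2.1 (by simp [T3.vars]))
  refine step2 hB' hC' hD (mul_pos (h.hξ _) (h.hξ _)) (mul_pos (h.hη _) (h.hη _)) (h.hξ _) (h.hη _) ?_ h0 a
    (v c.2.2 (by simp [T3.vars])) h1
  by_cases d : ξ c.2.1 ≤ η c.2.1
  · exact iff_of_true (mul_le_mul (e1.2 d) d (h.hξ _).le (h.hη _).le) (e2.1 d)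
  · refine iff_of_false (not_le.2 ?_) (mt e2.2 d)
    exact mul_lt_mul'' (not_le.1 (mt e1.1 d)) (not_le.1 d) (h.hη _).le (h.hη _).le

theorem same {a b : ℝ} (h : 1 ≤ a ↔ 1 ≤ b) : 0 ≤ (a - 1) * (b - 1) := by
  by_cases e : 1 ≤ a
  · exact mul_nonneg (by linarith) (by linarith [h.1 e])
  · exact mul_nonneg_of_nonpos_of_nonpos (by linarith [not_le.1 e]) (by linarith [not_le.1 (mt h.2 e)])

theorem case3 {A B C D φ p q ξ η} (hA : 0 < A) (hB : 0 < B) (hC : C < 0) (hD : D < 0) (det : A * D ≤ B * C)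
    (h : Dat (Pos A B C D) φ p q ξ η) : SatR nae φ := by
  obtain ⟨t, ht, s, hs, e⟩ := two fun t => 1 ≤ q t
  have hAC : 0 < -(A * C) := by nlinarith
  have good : ∀ x y, (x = 1 ∧ y = 1) ∨ (∃ c ∈ φ, x = ξ c.1 * ξ c.2.1 * ξ c.2.2 ∧ y = η c.1 * η c.2.1 * η c.2.2) →
      0 < x → 0 < y → 0 < B * D - A * C * ((q s * y) * (q t * y)) := by
    intro x y hxy hx hy
    obtain ⟨h0, h1, h2⟩ := h.gad x y hxy
    have := quad hA hB hC hD det (mul_pos (h.hq s) hy) hy (mul_pos (mul_pos (h.hq s) (h.hq t)) hy)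
      (mul_pos (h.hq t) hy) hx (mul_pos (mul_pos (h.hp s) (h.hp t)) hx) (by ring) (by ring) (h1 s (by omega))
      (h1 t ht) h0 (h2 t ht s hs)
    have d := mul_nonneg hy.le (same e)
    by_contra hn
    have := mul_nonneg_of_nonpos_of_nonpos (not_lt.1 hn)
      (show q s * y + q t * y - y - q s * q t * y ≤ 0 by linarith)
    linarith
  obtain ⟨r, hr, hrq⟩ : ∃ r < 3, q s * q t ≤ q r * q r := by
    rcases le_total (q s) (q t) with a | a
    · exact ⟨t, ht, mul_le_mul_of_nonneg_right a (h.hq t).le⟩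
    · exact ⟨s, by omega, mul_le_mul_of_nonneg_left a (h.hq s).le⟩
  have good2 : ∀ x y, (x = 1 ∧ y = 1) ∨ (∃ c ∈ φ, x = ξ c.1 * ξ c.2.1 * ξ c.2.2 ∧ y = η c.1 * η c.2.1 * η c.2.2) →
      0 < x → 0 < y → ∀ m, y * y ≤ m → 0 ≤ B * D - A * C * (q r * q r * m) := by
    intro x y hxy hx hy m hm
    have := good x y hxy hx hy
    have e : q s * q t * (y * y) ≤ q r * q r * m :=
      mul_le_mul hrq hm (mul_pos hy hy).le (mul_pos (h.hq r) (h.hq r)).le
    nlinarith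
  have p0 := (h.gad 1 1 (Or.inl ⟨rfl, rfl⟩)).2.1 r hr
  have step : ∀ {x y z w : ℝ}, 0 < x → 0 < y → 0 < z → 0 < w → (1 ≤ y ↔ 1 ≤ w) →
      0 ≤ B * D - A * C * (q r * q r * (y * w)) → ¬ Pos A B C D (p r * x) (q r * y) →
      ¬ Pos A B C D (p r * z) (q r * w) → ¬ Pos A B C D (p r * (x * z)) (q r * (y * w)) := by
    intro x y z w hx hy hz hw e g n1 n2 pp
    have := quad hA hB hC hD det (mul_pos (h.hq r) one_pos) (mul_pos (h.hq r) hy) (mul_pos (h.hq r) hw)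
      (mul_pos (h.hq r) (mul_pos hy hw)) (mul_pos (h.hp r) hx) (mul_pos (h.hp r) hz) (by ring) (by ring) p0 pp n1 n2
    have d := mul_nonneg g (mul_nonneg (h.hq r).le (same e))
    linarith
  refine sat_of (fun i => 1 ≤ η i) fun c hc e1 e2 => ?_
  have a := h.hη c.1
  have b := h.hη c.2.1
  have d := h.hη c.2.2
  have gg : 0 ≤ B * D - A * C * (q r * q r * (η c.1 * η c.2.1)) ∧
      0 ≤ B * D - A * C * (q r * q r * (η c.1 * η c.2.1 * η c.2.2)) ∧ (1 ≤ η c.1 * η c.2.1 ↔ 1 ≤ η c.2.2) := by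
    by_cases k : 1 ≤ η c.2.1
    · have k1 := e1.2 k
      have k2 := e2.1 k
      have k3 : 1 ≤ η c.1 * η c.2.1 := one_le_mul_of_one_le_of_one_le k1 k
      have g := good2 1 1 (Or.inl ⟨rfl, rfl⟩) one_pos one_pos
      exact ⟨g _ (by linarith), g _ (by linarith [one_le_mul_of_one_le_of_one_le k3 k2]), iff_of_true k3 k2⟩
    · have k1 := not_le.1 (mt e1.1 k)
      have k2 := not_le.1 (mt e2.2 k)
      have k := not_le.1 k
      have ab := mul_pos a b
      have k3 : η c.1 * η c.2.1 < 1 := by nlinarith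
      have k4 : η c.1 * η c.2.1 * η c.2.2 ≤ η c.1 * η c.2.1 := by nlinarith
      have abd := mul_pos ab d
      have g := good2 _ _ (Or.inr ⟨c, hc, rfl, rfl⟩) (mul_pos (mul_pos (h.hξ _) (h.hξ _)) (h.hξ _)) abd
      exact ⟨g _ (by nlinarith), g _ (by nlinarith), iff_of_false (not_le.2 k3) (not_le.2 k2)⟩
  have v := fun i hi => h.var c hc i hi r hr
  have n := step (h.hξ _) a (h.hξ _) b e1 gg.1 (v c.1 (by simp [T3.vars])) (v c.2.1 (by simp [T3.vars]))
  exact step (mul_pos (h.hξ _) (h.hξ _)) (mul_pos a b) (h.hξ _) d gg.2.2 gg.2.1 n (v c.2.2 (by simp [T3.vars]))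
    ((h.gad _ _ (Or.inr ⟨c, hc, rfl, rfl⟩)).2.1 r hr)

theorem Dat.swap {P φ p q ξ η} (h : Dat P φ p q ξ η) : Dat (fun x y => P y x) φ q p η ξ :=
  ⟨h.hq, h.hp, h.hη, h.hξ, fun x y hxy => h.gad y x (by
    rcases hxy with ⟨a, b⟩ | ⟨c, hc, a, b⟩
    exacts [Or.inl ⟨b, a⟩, Or.inr ⟨c, hc, b, a⟩]), h.var⟩

theorem key {c₀ c₁ c₂ X Y : ℝ} {φ p q ξ η} (h1 : 0 ≤ c₁) (h2 : 0 ≤ c₂) (hX : 0 < X) (hY : 0 < Y)
    (h : Dat (Pos ((c₀ + c₁ + c₂) * X * Y) ((c₀ + c₁) * X) ((c₀ + c₂) * Y) c₀) φ p q ξ η) : SatR nae φ := by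
  have XY := mul_pos hX hY
  have det : (c₀ + c₁ + c₂) * X * Y * c₀ ≤ (c₀ + c₁) * X * ((c₀ + c₂) * Y) := by
    nlinarith [mul_nonneg (mul_nonneg h1 h2) XY.le]
  rcases lt_trichotomy (c₀ + c₁) 0 with b | b | b <;> rcases lt_trichotomy (c₀ + c₂) 0 with c | c | c
  all_goals first
    | exact (case1 (by have : 0 ≤ c₀ + c₁ + c₂ := by linarith
                       positivity) (mul_nonneg (by linarith) hX.le) (mul_nonneg (by linarith) hY.le) h).elim
    | exact case2 (mul_nonpos_of_nonpos_of_nonneg (by linarith) hX.le)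
        (mul_nonpos_of_nonpos_of_nonneg (by linarith) hY.le) (by linarith) h
    | skip
  · have := h.swap
    have e : (fun x y => Pos ((c₀ + c₁ + c₂) * X * Y) ((c₀ + c₁) * X) ((c₀ + c₂) * Y) c₀ y x) =
        Pos ((c₀ + c₁ + c₂) * X * Y) ((c₀ + c₂) * Y) ((c₀ + c₁) * X) c₀ := by
      funext x y; unfold Pos; congr! 1; ring
    rw [e] at this
    exact case3 (by have : 0 < c₀ + c₁ + c₂ := by linarith
                    positivity) (mul_pos c hY) (mul_neg_of_neg_of_pos b hX) (by linarith) (by linarith) this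
  · exact case3 (by have : 0 < c₀ + c₁ + c₂ := by linarith
                    positivity) (mul_pos b hX) (mul_neg_of_neg_of_pos c hY) (by linarith) det h

end Pool.Agent.H.MP_52a6f5_lc
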