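import Pool.Agent.Lib.lead.CXSat

namespace Pool.Agent.H.MP_52a6f5_lc

/-- the standard sigmoid -/
noncomputable def sig (t : ℝ) : ℝ := 1 / (1 + Real.exp (-t))

/-- the threshold unit: `true` (= 1) iff `t ≥ 0` -/
noncomputable def eta (t : ℝ) : Bool := decide (0 ≤ t)

/-- the inner product of `a ∈ ℝ^k` with the Boolean vector `x` (a list of `k` bits) -/
def dot {k : ℕ} (a : Fin k → ℝ) (x : List Bool) : ℝ := ∑ i : Fin k, a i * (if x.getD i false = true then 1 else 0)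

/-- the output of the three-neuron network -/
noncomputable def net {k : ℕ} (a₁ a₂ : Fin k → ℝ) (b₁ b₂ c₀ c₁ c₂ : ℝ) (x : List Bool) : Bool :=
  eta (c₀ + c₁ * sig (dot a₁ x + b₁) + c₂ * sig (dot a₂ x + b₂))

/-- an instance: the dimension `k` and the list of labelled examples -/
abbrev Inst := ℕ × List (List Bool × Bool)

/-- `k ≥ 1` and every example lies in `{0,1}^k` -/
def Valid (I : Inst) : Prop := 1 ≤ I.1 ∧ ∀ e ∈ I.2, e.1.length = I.1

/-- some real parameters reproduce all labels -/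
def Load (I : Inst) : Prop :=
  ∃ (a₁ a₂ : Fin I.1 → ℝ) (b₁ b₂ c₀ c₁ c₂ : ℝ), ∀ e ∈ I.2, net a₁ a₂ b₁ b₂ c₀ c₁ c₂ e.1 = e.2

end Pool.Agent.H.MP_52a6f5_lc
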