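import Pool.Agent.H.MP_52a6f5_lc.Alg

namespace Pool.Agent.H.MP_52a6f5_lc
open Pool.Agent.Lib.CX

def pt (k : ℕ) (S : List ℕ) : List Bool := (List.range k).map fun i => decide (i ∈ S)

def gad : List (List ℕ × Bool) :=
  [([], false), ([0], true), ([1], true), ([2], true), ([0, 1], false), ([0, 2], false), ([1, 2], false)]

def mains (φ : List (T3 ℕ)) : List (List ℕ × Bool) :=
  ([], true) :: ((List.range (3 * φ.length)).map (fun i => ([i + 3], false)) ++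
    φ.map fun c => ([c.1 + 3, c.2.1 + 3, c.2.2 + 3], true))

def pts (φ : List (T3 ℕ)) : List (List ℕ × Bool) := (gad ×ˢ mains φ).map fun e => (e.1.1 ++ e.2.1, e.1.2 && e.2.2)

def red0 (φ : List (T3 ℕ)) : Inst := (3 * φ.length + 3, (pts φ).map fun e => (pt (3 * φ.length + 3) e.1, e.2))

theorem red0_pt : PT red0 := by unfold red0 pts mains pt; fun_prop

theorem red0_valid (φ) : Valid (red0 φ) := by
  refine ⟨by simp [red0], fun e he => ?_⟩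
  obtain ⟨e, -, rfl⟩ := List.mem_map.1 he
  simp [pt, red0]

theorem red0_len (φ) : (red0 φ).2.length ≤ 10 * (red0 φ).1 := by
  simp [red0, pts, mains, gad]; omega

def ext {k : ℕ} (a : Fin k → ℝ) (i : ℕ) : ℝ := if h : i < k then a ⟨i, h⟩ else 0

theorem dot_pt {k} (a : Fin k → ℝ) {S : List ℕ} (hn : S.Nodup) (hk : ∀ i ∈ S, i < k) :
    dot a (pt k S) = (S.map (ext a)).sum := by
  have e : ∀ i : Fin k, a i * (if (pt k S).getD i false = true then 1 else 0) =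
      (fun i : ℕ => if i ∈ S.toFinset then ext a i else 0) i := fun i => by
    simp [pt, ext, List.getD_eq_getElem?_getD]
  rw [dot, Finset.sum_congr rfl fun i _ => e i, Fin.sum_univ_eq_sum_range (fun i : ℕ => if i ∈ S.toFinset then ext a i else 0),
    Finset.sum_ite_mem, Finset.inter_eq_right.2 fun i hi => Finset.mem_range.2 (hk i (List.mem_toFinset.1 hi)),
    List.sum_toFinset _ hn]

def Ok (φ : List (T3 ℕ)) (a₁ a₂ : ℕ → ℝ) (b₁ b₂ c₀ c₁ c₂ : ℝ) : Prop :=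
  ∀ e ∈ pts φ, 0 ≤ c₀ + c₁ * sig ((e.1.map a₁).sum + b₁) + c₂ * sig ((e.1.map a₂).sum + b₂) ↔ e.2 = true

theorem mem_pts {φ e} : e ∈ pts φ ↔ ∃ y ∈ gad, ∃ x ∈ mains φ, (y.1 ++ x.1, y.2 && x.2) = e := by
  simp only [pts, List.mem_map, Prod.exists, List.mem_product]; grind

theorem mem_mains {φ x} : x ∈ mains φ ↔ x = ([], true) ∨ (∃ i < 3 * φ.length, ([i + 3], false) = x) ∨
    ∃ c ∈ φ, ([c.1 + 3, c.2.1 + 3, c.2.2 + 3], true) = x := by
  simp only [mains, List.mem_cons, List.mem_append, List.mem_map, List.mem_range]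

theorem pts_ok {φ : List (T3 ℕ)} (h : ∀ C ∈ φ, C.dist ∧ ∀ x ∈ C.vars, x < 3 * φ.length) {e} (he : e ∈ pts φ) :
    e.1.Nodup ∧ ∀ i ∈ e.1, i < 3 * φ.length + 3 := by
  obtain ⟨y, hy, x, hx, rfl⟩ := mem_pts.1 he
  have a := (by decide : ∀ y ∈ gad, y.1.Nodup ∧ ∀ i ∈ y.1, i < 3) y hy
  have b : x.1.Nodup ∧ ∀ i ∈ x.1, 3 ≤ i ∧ i < 3 * φ.length + 3 := by
    rcases mem_mains.1 hx with rfl | ⟨i, hi, rfl⟩ | ⟨c, hc, rfl⟩
    · simp
    · simp; omega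
    · have := h c hc
      simp only [T3.dist, T3.vars, List.forall_mem_cons] at this
      simp; omega
  refine ⟨List.nodup_append.2 ⟨a.1, b.1, fun i hi j hj => ?_⟩, fun i hi => ?_⟩
  · have := a.2 i hi; have := b.2 j hj; omega
  · rcases List.mem_append.1 hi with hi | hi
    · have := a.2 i hi; omega
    · exact (b.2 i hi).2

theorem load_iff {φ : List (T3 ℕ)} (h : ∀ C ∈ φ, C.dist ∧ ∀ x ∈ C.vars, x < 3 * φ.length) :
    Load (red0 φ) ↔ ∃ a₁ a₂ b₁ b₂ c₀ c₁ c₂, Ok φ a₁ a₂ b₁ b₂ c₀ c₁ c₂ := by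
  have k : ∀ (a₁ a₂ : Fin (3 * φ.length + 3) → ℝ) b₁ b₂ c₀ c₁ c₂,
      (∀ e ∈ (red0 φ).2, net a₁ a₂ b₁ b₂ c₀ c₁ c₂ e.1 = e.2) ↔ Ok φ (ext a₁) (ext a₂) b₁ b₂ c₀ c₁ c₂ := by
    intro a₁ a₂ b₁ b₂ c₀ c₁ c₂
    simp only [red0, List.forall_mem_map, Ok]
    refine forall₂_congr fun e he => ?_
    have := pts_ok h he
    rw [net, dot_pt _ this.1 this.2, dot_pt _ this.1 this.2, eta]
    cases e.2 <;> simp
  constructor
  · rintro ⟨a₁, a₂, b₁, b₂, c₀, c₁, c₂, hh⟩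
    exact ⟨_, _, _, _, _, _, _, (k ..).1 hh⟩
  · rintro ⟨a₁, a₂, b₁, b₂, c₀, c₁, c₂, hh⟩
    refine ⟨fun i => a₁ i, fun i => a₂ i, b₁, b₂, c₀, c₁, c₂, (k ..).2 fun e he => ?_⟩
    have m : ∀ a : ℕ → ℝ, e.1.map (ext fun i : Fin (3 * φ.length + 3) => a i) = e.1.map a := fun a =>
      List.map_congr_left fun i hi => by simp [ext, (pts_ok h he).2 i hi]
    have := hh e he
    rw [← m a₁, ← m a₂] at this; exact this

theorem sig_neg (t : ℝ) : sig (-t) = 1 - sig t := by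
  have := Real.exp_pos t
  simp only [sig, neg_neg, Real.exp_neg]; field_simp; ring

theorem Ok.swap {φ a₁ a₂ b₁ b₂ c₀ c₁ c₂} (h : Ok φ a₁ a₂ b₁ b₂ c₀ c₁ c₂) : Ok φ a₂ a₁ b₂ b₁ c₀ c₂ c₁ :=
  fun e he => by rw [← h e he, add_right_comm]

theorem Ok.flip {φ a₁ a₂ b₁ b₂ c₀ c₁ c₂} (h : Ok φ a₁ a₂ b₁ b₂ c₀ c₁ c₂) :
    Ok φ (fun i => -a₁ i) a₂ (-b₁) b₂ (c₀ + c₁) (-c₁) c₂ := fun e he => by
  have : (e.1.map fun i => -a₁ i).sum = -(e.1.map a₁).sum := by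
    induction e.1 with
    | nil => simp
    | cons a l ih => simp only [List.map_cons, List.sum_cons, ih]; ring
  rw [← h e he, this, ← neg_add, sig_neg]
  congr! 1; ring

theorem sig_pos {c₀ c₁ c₂ u v a b : ℝ} : 0 ≤ c₀ + c₁ * sig (u + a) + c₂ * sig (v + b) ↔
    Pos ((c₀ + c₁ + c₂) * a.exp * b.exp) ((c₀ + c₁) * a.exp) ((c₀ + c₂) * b.exp) c₀ u.exp v.exp := by
  have s : ∀ t, sig t = t.exp / (1 + t.exp) := fun t => by
    have := Real.exp_pos t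
    simp only [sig, Real.exp_neg]; field_simp; ring
  have h1 := Real.exp_pos (u + a)
  have h2 := Real.exp_pos (v + b)
  rw [← mul_nonneg_iff_of_pos_right (show 0 < (1 + (u + a).exp) * (1 + (v + b).exp) by positivity), Pos, s, s]
  congr! 1
  field_simp
  simp only [Real.exp_add]; ring

theorem sound0 {φ a₁ a₂ b₁ b₂ c₀ c₁ c₂} (hφ : ∀ C ∈ φ, C.dist ∧ ∀ x ∈ C.vars, x < 3 * φ.length) (h1 : 0 ≤ c₁)
    (h2 : 0 ≤ c₂) (h : Ok φ a₁ a₂ b₁ b₂ c₀ c₁ c₂) : SatR nae φ := by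
  have k := fun y hy x hx => sig_pos.symm.trans (h _ (mem_pts.2 ⟨y, hy, x, hx, rfl⟩))
  simp only [List.map_append, List.sum_append, Real.exp_add] at k
  have g1 : ∀ t < 3, ([t], true) ∈ gad := by decide
  have g2 : ∀ t < 3, ∀ s < t, ([s, t], false) ∈ gad := by decide
  refine key (c₀ := c₀) (p := fun t => (a₁ t).exp) (q := fun t => (a₂ t).exp) (ξ := fun t => (a₁ (t + 3)).exp)
    (η := fun t => (a₂ (t + 3)).exp) h1 h2 (Real.exp_pos b₁) (Real.exp_pos b₂)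
    ⟨fun _ => Real.exp_pos _, fun _ => Real.exp_pos _, fun _ => Real.exp_pos _, fun _ => Real.exp_pos _,
      fun x y hxy => ?_, fun c hc i hi t ht => ?_⟩
  · obtain ⟨S, hS, rfl, rfl⟩ : ∃ S, (S, true) ∈ mains φ ∧ x = (S.map a₁).sum.exp ∧ y = (S.map a₂).sum.exp := by
      rcases hxy with ⟨rfl, rfl⟩ | ⟨c, hc, rfl, rfl⟩
      · exact ⟨[], by simp [mains], by simp⟩
      · exact ⟨_, mem_mains.2 (Or.inr (Or.inr ⟨c, hc, rfl⟩)), by simp [Real.exp_add, mul_assoc]⟩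
    refine ⟨?_, fun t ht => ?_, fun t ht s hs => ?_⟩
    · simpa using k ([], false) (by decide) _ hS
    · simpa using k _ (g1 t ht) _ hS
    · simpa [Real.exp_add] using k _ (g2 t ht s hs) _ hS
  · simpa using k _ (g1 t ht) _ (mem_mains.2 (Or.inr (Or.inl ⟨i, (hφ c hc).2 i hi, rfl⟩)))

theorem sound {φ a₁ a₂ b₁ b₂ c₀ c₁ c₂} (hφ : ∀ C ∈ φ, C.dist ∧ ∀ x ∈ C.vars, x < 3 * φ.length)
    (h : Ok φ a₁ a₂ b₁ b₂ c₀ c₁ c₂) : SatR nae φ := by
  rcases le_total 0 c₁ with a | a <;> rcases le_total 0 c₂ with b | b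
  · exact sound0 hφ a b h
  · exact sound0 hφ (neg_nonneg.2 b) a h.swap.flip
  · exact sound0 hφ (neg_nonneg.2 a) b h.flip
  · exact sound0 hφ (neg_nonneg.2 b) (neg_nonneg.2 a) h.flip.swap.flip

theorem sig_ge {t : ℝ} (h : 2 ≤ t) : 3 / 4 ≤ sig t := by
  have a : 3 ≤ t.exp := by linarith [Real.add_one_le_exp t]
  have b := Real.exp_pos t
  simp only [sig, Real.exp_neg]
  rw [div_le_div_iff₀ (by norm_num) (by positivity)]
  have : (t.exp)⁻¹ ≤ 3⁻¹ := inv_anti₀ (by norm_num) a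
  linarith

theorem out_iff {u v : ℝ} (hu : 2 ≤ u ∨ u ≤ -2) (hv : 2 ≤ v ∨ v ≤ -2) :
    0 ≤ -(3 / 2) + 1 * sig u + 1 * sig v ↔ 2 ≤ u ∧ 2 ≤ v := by
  have le : ∀ {t : ℝ}, t ≤ -2 → sig t ≤ 1 / 4 := fun {t} h => by
    have := sig_ge (t := -t) (by linarith); rw [sig_neg] at this; linarith
  have one : ∀ t : ℝ, sig t ≤ 1 := fun t => by
    have : 0 ≤ sig (-t) := by unfold sig; positivity
    rw [sig_neg] at this; linarith
  refine ⟨fun h => ⟨?_, ?_⟩, fun h => by linarith [sig_ge h.1, sig_ge h.2]⟩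
  · exact hu.resolve_right fun e => by linarith [le e, one v]
  · exact hv.resolve_right fun e => by linarith [le e, one u]

theorem complete {φ : List (T3 ℕ)} (h : SatR nae φ) : ∃ a₁ a₂ b₁ b₂ c₀ c₁ c₂, Ok φ a₁ a₂ b₁ b₂ c₀ c₁ c₂ := by
  obtain ⟨v, hv⟩ := h
  let f : ℕ → ℤ := fun i => if i < 3 then -7 else if v (i - 3) then -1 else 2
  let g : ℕ → ℤ := fun i => if i < 3 then 7 else if v (i - 3) then 2 else -1
  refine ⟨fun i => 4 * f i, fun i => 4 * g i, 30, -26, -(3 / 2), 1, 1, fun e he => ?_⟩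
  have s : ∀ (f : ℕ → ℤ) (l : List ℕ), (l.map fun i => (4 * f i : ℝ)).sum = 4 * ((l.map f).sum : ℤ) := by
    intro f l
    induction l with
    | nil => simp
    | cons a l ih => simp only [List.map_cons, List.sum_cons, ih]; push_cast; ring
  have c1 : ∀ n : ℤ, (2 ≤ 4 * (n : ℝ) + 30 ↔ -7 ≤ n) ∧ (4 * (n : ℝ) + 30 ≤ -2 ↔ n ≤ -8) := fun n => by
    constructor <;> norm_cast <;> omega
  have c2 : ∀ n : ℤ, (2 ≤ 4 * (n : ℝ) + -26 ↔ 7 ≤ n) ∧ (4 * (n : ℝ) + -26 ≤ -2 ↔ n ≤ 6) := fun n => by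
    constructor <;> norm_cast <;> omega
  rw [s, s, out_iff (by rw [(c1 _).1, (c1 _).2]; omega) (by rw [(c2 _).1, (c2 _).2]; omega), (c1 _).1, (c2 _).1]
  obtain ⟨y, hy, x, hx, rfl⟩ := mem_pts.1 he
  have b : -3 ≤ (x.1.map f).sum ∧ (x.1.map f).sum ≤ 6 ∧ -3 ≤ (x.1.map g).sum ∧ (x.1.map g).sum ≤ 6 ∧
      (0 ≤ (x.1.map f).sum ∧ 0 ≤ (x.1.map g).sum ↔ x.2 = true) := by
    rcases mem_mains.1 hx with rfl | ⟨i, hi, rfl⟩ | ⟨c, hc, rfl⟩
    · simp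
    · cases h : v i <;> simp [f, g, h]
    · have := hv c hc
      cases h1 : v c.1 <;> cases h2 : v c.2.1 <;> cases h3 : v c.2.2 <;> simp_all [f, g, nae]
  simp only [List.map_append, List.sum_append, Bool.and_eq_true, ← b.2.2.2.2]
  simp only [gad, List.mem_cons, List.not_mem_nil, or_false] at hy
  generalize (x.1.map f).sum = m at b
  generalize (x.1.map g).sum = n at b
  rcases hy with rfl | rfl | rfl | rfl | rfl | rfl | rfl <;> simp [f, g] <;> omega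

theorem red0_iff {φ : List (T3 ℕ)} (h : ∀ C ∈ φ, C.dist ∧ ∀ x ∈ C.vars, x < 3 * φ.length) :
    SatR nae φ ↔ Load (red0 φ) :=
  ⟨fun s => (load_iff h).2 (complete s), fun l => by
    obtain ⟨_, _, _, _, _, _, _, l⟩ := (load_iff h).1 l; exact sound h l⟩

end Pool.Agent.H.MP_52a6f5_lc
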